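import Pool.Agent.H17.KzMin

/-!
# The binomial bound for the Betti numbers of Koszul algebras with `R₃ = 0`

Let `R = S/I` with `S = K[x_1, …, x_n]`, `𝔪 = (x_1, …, x_n)` and `𝔪³ ⊆ I ⊆ 𝔪²` (so `R` is
standard graded, `I` has no linear forms, and `R₃ = 0`). If `R` is Koszul then the Betti numbers
of `R` over `S` satisfy `β_i ≤ binom(β_1, i)` for all `i`.
-/

open MvPolynomial

namespace Pool.Agent.Results.MP_fe38a9_al.CubeZero

open Pool.Agent.H17.Kz

theorem hdim_congr {K : Type*} [Field K] {n : ℕ} {S T : Type*} [CommRing S] [Algebra K S]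
    [CommRing T] [Algebra K T] {M : Type*} [AddCommGroup M] [Module K M] [Module S M]
    [IsScalarTower K S M] [Module T M] [IsScalarTower K T M] (ξ : Fin n → S) (ζ : Fin n → T)
    (h : ∀ k (m : M), ξ k • m = ζ k • m) (i : ℕ) : hdim K ξ M i = hdim K ζ M i := by
  have hk : ∀ i, kdiff K ξ M i = kdiff K ζ M i := by
    intro i
    apply LinearMap.ext
    intro c
    ext v
    rw [kdiff_apply, kdiff_apply]
    exact Finset.sum_congr rfl (fun k _ => h k _)
  cases i with
  | zero =>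
    exact congrArg (fun (d : KC K n M 1 →ₗ[K] KC K n M 0) =>
      Module.finrank K (KC K n M 0 ⧸ LinearMap.range d)) (hk 0)
  | succ i =>
    exact congrArg₂ (fun (d : KC K n M (i + 1) →ₗ[K] KC K n M i)
      (e : KC K n M (i + 2) →ₗ[K] KC K n M (i + 1)) =>
      Module.finrank K (LinearMap.ker d ⧸ (LinearMap.range e).submoduleOf (LinearMap.ker d)))
      (hk i) (hk (i + 1))

theorem hdim_quot {K : Type*} [Field K] {n : ℕ} (I : Ideal (MvPolynomial (Fin n) K)) (i : ℕ) :
    hdim K (X : Fin n → MvPolynomial (Fin n) K) (MvPolynomial (Fin n) K ⧸ I) i =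
      hdim K (qx I) (MvPolynomial (Fin n) K ⧸ I) i :=
  hdim_congr _ _ (fun _ _ => rfl) i

/-- **Binomial bound for Koszul algebras with `R₃ = 0`.** -/
theorem result {K : Type*} [Field K] {n : ℕ} (I : Ideal (MvPolynomial (Fin n) K))
    (h2 : I ≤ idealOfVars (Fin n) K ^ 2) (h3 : idealOfVars (Fin n) K ^ 3 ≤ I) (hK : IsKoszul I)
    (r : ℕ → ℕ) (F : ∀ k, Matrix (Fin (r k)) (Fin (r (k + 1))) (MvPolynomial (Fin n) K))
    (hF : IsRes (MvPolynomial (Fin n) K) I (idealOfVars (Fin n) K : Set (MvPolynomial (Fin n) K))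
      r F) (i : ℕ) :
    r i ≤ (r 1).choose i := by
  rw [← hdim_min I r F hF i, ← hdim_min I r F hF 1, hdim_quot, hdim_quot]
  exact main_hdim I h2 h3 hK i

end Pool.Agent.Results.MP_fe38a9_al.CubeZero
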