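import Pool.Agent.H98.KfFin
import Pool.Agent.H98.KfCor

/-!
# The binomial bound for Koszul algebras with a hereditary Koszul filtration

Let `R = S/I`, `S = K[x_1, …, x_n]`, `I` homogeneous, `I ⊆ (x_1, …, x_n)²`. If `R` has a colon
family of ideals generated by linear forms (for example if `R` is strongly Koszul, or universally
Koszul, or has a Koszul filtration which restricts to Koszul filtrations of the quotients by its
members) then `β_i ≤ binom(β_1, i)` for all `i`.
-/

open MvPolynomial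

namespace Pool.Agent.Results.MP_fe38a9_al.KoszulFiltration

open Pool.Agent.H17.Kz Pool.Agent.H98.KF

/-- **Binomial bound for algebras with a colon family.** -/
theorem result {K : Type*} [Field K] {n : ℕ} (I : Ideal (MvPolynomial (Fin n) K))
    (hI : ∀ f ∈ I, ∀ d, homogeneousComponent d f ∈ I)
    (h2 : I ≤ idealOfVars (Fin n) K ^ 2)
    (FF : Set (Ideal (MvPolynomial (Fin n) K))) (hFF : IsColonFamily I FF)
    (r : ℕ → ℕ) (F : ∀ k, Matrix (Fin (r k)) (Fin (r (k + 1))) (MvPolynomial (Fin n) K))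
    (hF : IsRes (MvPolynomial (Fin n) K) I (idealOfVars (Fin n) K : Set (MvPolynomial (Fin n) K))
      r F) (i : ℕ) :
    r i ≤ (r 1).choose i :=
  main hFF hI h2 r F hF i

/-- Special case: hereditary Koszul filtrations. -/
theorem hereditary {K : Type*} [Field K] {n : ℕ} (I : Ideal (MvPolynomial (Fin n) K))
    (hI : ∀ f ∈ I, ∀ d, homogeneousComponent d f ∈ I)
    (h2 : I ≤ idealOfVars (Fin n) K ^ 2)
    (FF : Set (Ideal (MvPolynomial (Fin n) K))) (hFF : IsHereditaryFiltration I FF)
    (r : ℕ → ℕ) (F : ∀ k, Matrix (Fin (r k)) (Fin (r (k + 1))) (MvPolynomial (Fin n) K))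
    (hF : IsRes (MvPolynomial (Fin n) K) I (idealOfVars (Fin n) K : Set (MvPolynomial (Fin n) K))
      r F) (i : ℕ) :
    r i ≤ (r 1).choose i :=
  main (hFF.colonFamily h2) hI h2 r F hF i

/-- Special case: strongly Koszul algebras. -/
theorem strongly {K : Type*} [Field K] {n : ℕ} (I : Ideal (MvPolynomial (Fin n) K))
    (hI : ∀ f ∈ I, ∀ d, homogeneousComponent d f ∈ I)
    (h2 : I ≤ idealOfVars (Fin n) K ^ 2) (h : IsStronglyKoszul I)
    (r : ℕ → ℕ) (F : ∀ k, Matrix (Fin (r k)) (Fin (r (k + 1))) (MvPolynomial (Fin n) K))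
    (hF : IsRes (MvPolynomial (Fin n) K) I (idealOfVars (Fin n) K : Set (MvPolynomial (Fin n) K))
      r F) (i : ℕ) :
    r i ≤ (r 1).choose i := by
  obtain ⟨FF, hFF⟩ := h.colonFamily hI h2
  exact main hFF hI h2 r F hF i

/-- Special case: universally Koszul algebras. -/
theorem universally {K : Type*} [Field K] {n : ℕ} (I : Ideal (MvPolynomial (Fin n) K))
    (hI : ∀ f ∈ I, ∀ d, homogeneousComponent d f ∈ I)
    (h2 : I ≤ idealOfVars (Fin n) K ^ 2) (h : IsUniversallyKoszul I)
    (r : ℕ → ℕ) (F : ∀ k, Matrix (Fin (r k)) (Fin (r (k + 1))) (MvPolynomial (Fin n) K))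
    (hF : IsRes (MvPolynomial (Fin n) K) I (idealOfVars (Fin n) K : Set (MvPolynomial (Fin n) K))
      r F) (i : ℕ) :
    r i ≤ (r 1).choose i := by
  obtain ⟨FF, hFF⟩ := h.colonFamily hI h2
  exact main hFF hI h2 r F hF i

end Pool.Agent.Results.MP_fe38a9_al.KoszulFiltration
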